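import Pool.Agent.helper81.BS.SpecG

/-!
# Edge bisection, graph part, module M7: furthest minimal sets are important
-/

set_option autoImplicit false
set_option linter.dupNamespace false
set_option linter.unusedVariables false
set_option linter.unusedSectionVars false

namespace Pool.Agent.helper81.BS

open Pool.Agent.helper81.PL

theorem M7 : M7_stmt := by
  intro n E Q v P M h
  refine ⟨h.1, fun M' hM' hlt => ?_⟩
  obtain ⟨h1, h2⟩ := h.2.2 M' hM' (h.2.1.trans hlt.1)
  rcases Nat.lt_or_ge (dd n E M) (dd n E M') with h3 | h3
  · exact h3
  · exact absurd (h2 h3) hlt.2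

end Pool.Agent.helper81.BS
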