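import Pool.Agent.helper50.BS.SpecU

/-!
# Project bs, module UA2: partitions
-/

set_option autoImplicit false
set_option linter.unusedVariables false
set_option linter.dupNamespace false

open scoped Classical

noncomputable section

namespace Pool.Agent.helper50.BT

open Pool.Agent.helper81.PL

theorem UA2 : UA2_stmt := by
  intro n E W h PP hPP
  obtain ⟨hne, hdis, hun⟩ := hPP
  have hall : ∀ C ∈ PP, ∀ D ∈ PP, C ≠ D → Disjoint C D := by
    intro C hC D hD hCD
    have : Std.Symm (Disjoint : Finset ℕ → Finset ℕ → Prop) := ⟨fun _ _ h => h.symm⟩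
    exact hdis.forall hC hD hCD
  have hW : ∀ x, x ∈ W ↔ ∃ C ∈ PP, x ∈ C := by
    intro x
    rw [← hun, mem_unions]
  refine ⟨?_, ⟨?_, ?_, ?_⟩, ?_⟩
  · refine List.Pairwise.imp_of_mem ?_ hdis
    intro C D hC _ hCD he
    subst he
    obtain ⟨x, hx⟩ := hne C hC
    exact (Finset.disjoint_left.mp hCD hx) hx
  · intro C hC
    exact hne C (List.mem_toFinset.mp hC)
  · intro C hC D hD hCD
    exact hall C (List.mem_toFinset.mp hC) D (List.mem_toFinset.mp hD) hCD
  · ext x
    rw [Finset.mem_biUnion, hW]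
    constructor
    · rintro ⟨C, hC, hx⟩
      exact ⟨C, List.mem_toFinset.mp hC, hx⟩
    · rintro ⟨C, hC, hx⟩
      exact ⟨C, List.mem_toFinset.mpr hC, hx⟩
  · ext e
    have e1 : e ∈ (ig n E h).beta PP.toFinset ↔
        ∃ C ∈ PP, e ∈ E ∧ ¬ (e / n ∈ C ↔ e % n ∈ C) := by
      unfold BS.IG.beta BS.IG.dl
      rw [Finset.mem_biUnion]
      constructor
      · rintro ⟨C, hC, hx⟩
        exact ⟨C, List.mem_toFinset.mp hC, Finset.mem_filter.mp hx⟩
      · rintro ⟨C, hC, hx⟩
        exact ⟨C, List.mem_toFinset.mpr hC, Finset.mem_filter.mpr hx⟩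
    have e2 : e ∈ helper81.BS.beta n E W PP ↔
        (e ∈ E ∧ (e / n ∈ W ∨ e % n ∈ W)) ∧ ¬ ∃ C ∈ PP, e / n ∈ C ∧ e % n ∈ C := by
      unfold helper81.BS.beta helper81.BS.tch
      simp [fmem]
    rw [e1, e2]
    constructor
    · rintro ⟨C, hC, heE, hx⟩
      refine ⟨⟨heE, ?_⟩, ?_⟩
      · by_cases h1 : e / n ∈ C
        · exact Or.inl ((hW _).mpr ⟨C, hC, h1⟩)
        · by_cases h2 : e % n ∈ C
          · exact Or.inr ((hW _).mpr ⟨C, hC, h2⟩)
          · exact absurd (iff_of_false h1 h2) hx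
      · rintro ⟨D, hD, hd1, hd2⟩
        by_cases hCD : C = D
        · subst hCD
          exact hx (iff_of_true hd1 hd2)
        · have hdj := hall C hC D hD hCD
          by_cases h1 : e / n ∈ C
          · exact (Finset.disjoint_left.mp hdj h1) hd1
          · by_cases h2 : e % n ∈ C
            · exact (Finset.disjoint_left.mp hdj h2) hd2
            · exact hx (iff_of_false h1 h2)
    · rintro ⟨⟨heE, hW1⟩, hno⟩
      rcases hW1 with h1 | h1
      · obtain ⟨C, hC, h2⟩ := (hW _).mp h1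
        exact ⟨C, hC, heE, fun h3 => hno ⟨C, hC, h2, h3.mp h2⟩⟩
      · obtain ⟨C, hC, h2⟩ := (hW _).mp h1
        exact ⟨C, hC, heE, fun h3 => hno ⟨C, hC, h3.mpr h2, h2⟩⟩

end Pool.Agent.helper50.BT

end
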