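import Pool.Agent.helper50.BS.SpecT

/-!
# Project bs, module TC2: connected sets of the incidence graph
-/

set_option autoImplicit false
set_option linter.unusedVariables false
set_option linter.dupNamespace false

open Finset

open scoped Classical

noncomputable section

namespace Pool.Agent.BS

/-- what holds at the points reachable from the vertex `u` -/
def TC2_P (g : IG) (K : Finset (ℕ ⊕ ℕ)) (u : ℕ) : ℕ ⊕ ℕ → Prop
  | .inl v => Reach g.vadj K.toLeft u v
  | .inr e => ∃ w, Reach g.vadj K.toLeft u w ∧ e ∈ g.E ∧ (w = g.s e ∨ w = g.t e)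

theorem TC2_reach (g : IG) (K : Finset (ℕ ⊕ ℕ)) (u : ℕ) {x : ℕ ⊕ ℕ}
    (h : Reach g.adj K (Sum.inl u) x) : TC2_P g K u x := by
  unfold Reach at h
  induction h with
  | refl => exact Relation.ReflTransGen.refl
  | @tail b c hb hc ih =>
    obtain ⟨h1, h2⟩ := hc
    match b, c, h1, h2, ih with
    | .inl w, .inl v, h1, h2, ih => exact h1.elim
    | .inr w, .inr v, h1, h2, ih => exact h1.elim
    | .inl w, .inr e, h1, h2, ih => exact ⟨w, ih, h1⟩
    | .inr e, .inl v, h1, h2, ih =>
      obtain ⟨w, hw, he, hwe⟩ := ih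
      obtain ⟨-, hve⟩ := h1
      show Reach g.vadj K.toLeft u v
      by_cases hwv : w = v
      · rw [← hwv]; exact hw
      · refine Relation.ReflTransGen.tail hw ⟨⟨e, he, ?_⟩, Finset.mem_toLeft.mpr h2⟩
        rcases hwe with h3 | h3 <;> rcases hve with h4 | h4
        · exact absurd (h3.trans h4.symm) hwv
        · exact Or.inl ⟨h3, h4⟩
        · exact Or.inr ⟨h3, h4⟩
        · exact absurd (h3.trans h4.symm) hwv

/-- the first step from an edge -/
theorem TC2_head (g : IG) (K : Finset (ℕ ⊕ ℕ)) (e : ℕ) {x : ℕ ⊕ ℕ}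
    (h : Reach g.adj K (Sum.inr e) x) :
    x = Sum.inr e ∨ g.s e ∈ K.toLeft ∨ g.t e ∈ K.toLeft := by
  rcases Relation.ReflTransGen.cases_head h with h1 | ⟨c, ⟨h1, h2⟩, -⟩
  · exact Or.inl h1.symm
  · right
    match c, h1, h2 with
    | .inr v, h1, h2 => exact h1.elim
    | .inl v, h1, h2 =>
      rcases h1.2 with h3 | h3
      · left; rw [← h3]; exact Finset.mem_toLeft.mpr h2
      · right; rw [← h3]; exact Finset.mem_toLeft.mpr h2

theorem TC2 : TC2_stmt := by
  intro g K hK
  refine ⟨?_, ?_⟩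
  · intro h0
    obtain ⟨a, ha⟩ := hK.1
    match a, ha with
    | .inl v, ha =>
      have : v ∈ K.toLeft := Finset.mem_toLeft.mpr ha
      rw [h0] at this
      exact absurd this (Finset.notMem_empty v)
    | .inr e, ha =>
      refine ⟨e, Finset.eq_singleton_iff_unique_mem.mpr ⟨ha, fun b hb => ?_⟩⟩
      rcases TC2_head g K e (hK.2 _ ha b hb) with h1 | h1 | h1
      · exact h1
      · rw [h0] at h1; exact absurd h1 (Finset.notMem_empty _)
      · rw [h0] at h1; exact absurd h1 (Finset.notMem_empty _)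
  · intro hne
    refine ⟨⟨hne, fun u hu v hv => ?_⟩, fun e he => ?_⟩
    · exact TC2_reach g K u (hK.2 _ (Finset.mem_toLeft.mp hu) _ (Finset.mem_toLeft.mp hv))
    · obtain ⟨v, hv⟩ := hne
      rcases TC2_head g K e (hK.2 _ (Finset.mem_toRight.mp he) _ (Finset.mem_toLeft.mp hv)) with
        h1 | h1
      · exact absurd h1 (by simp)
      · exact h1

end Pool.Agent.BS

end
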